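import Pool.Agent.R193.DS.Path

/-!
# A component of the space of triangulable dilation surfaces without dense orbits

The stratum is that of the dilation surfaces of genus `2` with one cone point of angle `6 π`, and
`Moduli` (in `Pool.Agent.R193.DS.Defs`) is its triangulable locus.

Idea of the proof.  Call a function `u` on the charts of a dilation surface equivariant if it is
multiplied by the same factor as the chart.  On the surfaces of the family below, cut by a saddle
connection into two one-holed dilation tori, both having a reflex angle at the vertex, there is,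
up to a factor, exactly one positive equivariant locally convex function.  It is affine on both
halves, with the gradients `ξ` and `-κ ξ`.  So the unordered pair `κ, 1 / κ` is an invariant of the
surface, which is not changed by `SL₂(ℝ)` and varies continuously on an open set of one connected
component.
-/

set_option autoImplicit false

open Set Filter Topology

namespace Pool.Agent.Results.MP_55f3b9_an.NoDenseOrbit

open Pool.Agent.R193.DS

/-- In the space of the triangulable dilation surfaces of genus `2` with one cone point (of angle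
`6 π`) there is a connected component in which no `SL₂(ℝ)`-orbit is dense. -/
theorem result : ∃ x : Moduli, ∀ y ∈ connectedComponent x,
    closure (Moduli.orbit y) ≠ connectedComponent x := by
  let p : ℝ → Moduli := fun t => Quot.mk Step (Dp (1 + t ^ 2) (by positivity))
  have hq : Continuous (Quot.mk Step : Surf → Quot Step) := continuous_quot_mk
  have hp : Continuous p := hq.comp path_cont
  have hrange : IsPreconnected (range p) := isPreconnected_range hp
  have hsub : range p ⊆ connectedComponent (p 0) :=
    hrange.subset_connectedComponent (mem_range_self 0)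
  refine ⟨p 0, ?_⟩
  intro y _ hcl
  have m0 : p 0 ∈ closure (Moduli.orbit y) := by rw [hcl]; exact hsub (mem_range_self 0)
  have m1 : p 1 ∈ closure (Moduli.orbit y) := by rw [hcl]; exact hsub (mem_range_self 1)
  have n0 : p 0 ∈ (Quot.mk Step : Surf → Moduli) '' V1 := by
    obtain ⟨h1, h2⟩ := path_VV (1 + 0 ^ 2) (by norm_num)
    refine ⟨_, ⟨h1, ?_, ?_⟩, rfl⟩
    · rw [h2]; norm_num
    · rw [h2]; norm_num
  have n1 : p 1 ∈ (Quot.mk Step : Surf → Moduli) '' V3 := by
    obtain ⟨h1, h2⟩ := path_VV (1 + 1 ^ 2) (by norm_num)
    refine ⟨_, ⟨h1, ?_⟩, rfl⟩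
    rw [h2]; norm_num
  obtain ⟨z, ⟨D1, hD1, e1⟩, ⟨A, eA⟩⟩ := mem_closure_iff.1 m0 _ (isOpen_image V1_open) n0
  obtain ⟨z', ⟨D3, hD3, e3⟩, ⟨B, eB⟩⟩ := mem_closure_iff.1 m1 _ (isOpen_image V3_open) n1
  have back : ∀ (C : Matrix.SpecialLinearGroup (Fin 2) ℝ) (D' : Surf),
      (Quot.mk Step D' : Moduli) = Moduli.act C y → (Quot.mk Step (act C⁻¹ D') : Moduli) = y := by
    intro C D' h
    have h1 : Moduli.act C⁻¹ (Quot.mk Step D') = Moduli.act C⁻¹ (Moduli.act C y) := by rw [h]
    induction y using Quot.ind with
    | mk D0 =>
      have h2 : Moduli.act C⁻¹ (Moduli.act C (Quot.mk Step D0)) =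
          Quot.mk Step (act C⁻¹ (act C D0)) := rfl
      rw [h2, act_inv] at h1
      exact h1
  have f1 := back A D1 (e1.trans eA)
  have f3 := back B D3 (e3.trans eB)
  have hgen : Relation.EqvGen Step (act A⁻¹ D1) (act B⁻¹ D3) :=
    Quot.eqvGen_exact (f1.trans f3.symm)
  exact not_tr (V1_act A⁻¹ hD1) (V3_act B⁻¹ hD3) (Tr_eqvGen hgen).1

end Pool.Agent.Results.MP_55f3b9_an.NoDenseOrbit
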